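import Pool.Agent.H322R3.AcylAlg

/-!
# Pairwise non-commuting loxodromic generators: geodesic hyperbolic spaces

The full answer to the question with the definitions of the problem: geodesic hyperbolic spaces,
acylindrical isometric actions, loxodromic elements defined by quasi-isometric embeddings of the
orbit of `ℤ`.  The generators found are loxodromic for one and the same action.
-/

set_option autoImplicit false

namespace Pool.Agent.Results.MP_10a497_al.GeodesicSpaces

universe u v

/-- Any two points are joined by a geodesic. -/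
def Geodesic (X : Type v) [MetricSpace X] : Prop :=
  ∀ x y : X, ∃ γ : ℝ → X, γ 0 = x ∧ γ (dist x y) = y ∧
    ∀ s ∈ Set.Icc (0 : ℝ) (dist x y), ∀ t ∈ Set.Icc (0 : ℝ) (dist x y), dist (γ s) (γ t) = |s - t|

/-- Gromov hyperbolicity: the four point condition holds for some `δ`. -/
def Hyperbolic (X : Type v) [MetricSpace X] : Prop :=
  ∃ δ : ℝ, ∀ x y z w : X,
    dist x y + dist z w ≤ max (dist x z + dist y w) (dist x w + dist y z) + 2 * δ

/-- `G` acts by isometries. -/
def Isometric (G : Type u) (X : Type v) [Group G] [MetricSpace X] [MulAction G X] : Prop :=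
  ∀ (h : G) (x y : X), dist (h • x) (h • y) = dist x y

/-- The action is acylindrical. -/
def Acylindrical (G : Type u) (X : Type v) [Group G] [MetricSpace X] [MulAction G X] : Prop :=
  ∀ ε : ℝ, 0 < ε → ∃ (R : ℝ) (N : ℕ), 0 < R ∧ 0 < N ∧ ∀ x y : X, R ≤ dist x y →
    {h : G | dist x (h • x) ≤ ε ∧ dist y (h • y) ≤ ε}.encard ≤ N

/-- `g` is loxodromic: for some `x` the map `n ↦ g ^ n • x` is a quasi-isometric embedding of the
integers. -/
def Loxodromic (X : Type v) [MetricSpace X] {G : Type u} [Group G] [MulAction G X] (g : G) : Prop :=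
  ∃ (x : X) (L : ℝ), 0 < L ∧ ∀ m n : ℤ,
    |(m : ℝ) - n| / L - L ≤ dist ((g ^ m) • x) ((g ^ n) • x) ∧
    dist ((g ^ m) • x) ((g ^ n) • x) ≤ L * |(m : ℝ) - n| + L

/-- `G` has a cyclic subgroup of finite index. -/
def VirtuallyCyclic (G : Type u) [Group G] : Prop := ∃ H : Subgroup G, H.FiniteIndex ∧ IsCyclic H

section aux

variable {G : Type u} {X : Type v} [Group G] [MetricSpace X] [MulAction G X]

lemma acyl (h : Acylindrical G X) : H322R3.Acyl.Acylin G X := by
  intro ε hε
  obtain ⟨R, N, -, -, H⟩ := h ε hε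
  refine ⟨R, N, fun x y hxy => ?_⟩
  have h1 := H x y hxy
  have hf : {h : G | dist x (h • x) ≤ ε ∧ dist y (h • y) ≤ ε}.Finite :=
    Set.finite_of_encard_le_coe h1
  refine ⟨hf, ?_⟩
  rw [← hf.cast_ncard_eq] at h1
  exact_mod_cast h1

lemma orbit_le (hi : Isometric G X) (g : G) (x : X) (n k : ℕ) :
    dist x ((g ^ (n * k)) • x) ≤ k * dist x ((g ^ n) • x) := by
  induction k with
  | zero => simp
  | succ k ih =>
    have h1 : dist x ((g ^ (n * (k + 1))) • x) ≤
        dist x ((g ^ (n * k)) • x) + dist ((g ^ (n * k)) • x) ((g ^ (n * (k + 1))) • x) :=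
      dist_triangle _ _ _
    have h2 : dist ((g ^ (n * k)) • x) ((g ^ (n * (k + 1))) • x) = dist x ((g ^ n) • x) := by
      rw [Nat.mul_succ, pow_add, mul_smul, hi]
    rw [h2] at h1
    push_cast
    linarith

lemma lox_of (hi : Isometric G X) {g : G} (h : Loxodromic X g) : H322R3.Acyl.Lox X g := by
  obtain ⟨x, L, hL, H⟩ := h
  refine ⟨x, 1 / L, by positivity, fun n => ?_⟩
  by_contra hlt
  push Not at hlt
  set d : ℝ := dist x ((g ^ n) • x) with hd
  have hpos : 0 < 1 / L * n - d := by linarith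
  obtain ⟨k, hk⟩ := exists_nat_gt (L / (1 / L * n - d))
  have h1 := (H 0 ((n * k : ℕ) : ℤ)).1
  rw [zpow_zero, one_smul, zpow_natCast] at h1
  have h2 := orbit_le hi g x n k
  have h3 : |((0 : ℤ) : ℝ) - (((n * k : ℕ) : ℤ) : ℝ)| = (n : ℝ) * k := by
    push_cast
    rw [zero_sub, abs_neg, abs_of_nonneg (by positivity)]
  rw [h3] at h1
  have h4 : L < k * (1 / L * n - d) := by
    rw [div_lt_iff₀ hpos] at hk
    linarith
  have h5 : (n : ℝ) * k / L = k * (1 / L * n) := by ring
  have h6 : (k : ℝ) * (1 / L * n - d) = k * (1 / L * n) - k * d := by ring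
  rw [← hd] at h2
  rw [h5] at h1
  rw [h6] at h4
  linarith

lemma of_lox (hi : Isometric G X) {g : G} (h : H322R3.Acyl.Lox X g) : Loxodromic X g := by
  obtain ⟨x, c, hc, H⟩ := h
  set D : ℝ := dist x (g • x) with hD
  have hD0 : 0 ≤ D := dist_nonneg
  have key : ∀ m : ℤ, ∀ k : ℕ, c * k ≤ dist ((g ^ m) • x) ((g ^ (m + k)) • x) ∧
      dist ((g ^ m) • x) ((g ^ (m + k)) • x) ≤ D * k := by
    intro m k
    rw [zpow_add, mul_smul, hi, zpow_natCast]
    refine ⟨H k, ?_⟩
    have := orbit_le hi g x 1 k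
    rw [one_mul, pow_one] at this
    linarith
  set L : ℝ := 1 / c + D + 1 with hLdef
  have hL : 0 < L := by positivity
  have hcL : ∀ t : ℝ, 0 ≤ t → t / L - L ≤ c * t := by
    intro t ht
    have h1 : 1 / L ≤ c := by
      rw [div_le_iff₀ hL, hLdef]
      have : c * (1 / c) = 1 := by field_simp
      nlinarith
    have h2 : t / L ≤ c * t := by
      have := mul_le_mul_of_nonneg_left h1 ht
      have e : t * (1 / L) = t / L := by ring
      rw [e] at this
      linarith
    linarith
  have hDL : ∀ t : ℝ, 0 ≤ t → D * t ≤ L * t + L := by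
    intro t ht
    have h1 : D ≤ L := by
      have : 0 < 1 / c := by positivity
      linarith
    have := mul_le_mul_of_nonneg_right h1 ht
    linarith
  refine ⟨x, L, hL, fun m n => ?_⟩
  rcases le_total m n with hmn | hmn
  · obtain ⟨k, rfl⟩ := Int.le.dest hmn
    have hk := key m k
    have e : |(m : ℝ) - ((m + k : ℤ) : ℝ)| = k := by
      push_cast
      rw [show (m : ℝ) - (m + k) = -(k : ℝ) by ring, abs_neg, abs_of_nonneg (by positivity)]
    rw [e]
    exact ⟨(hcL k (by positivity)).trans hk.1, hk.2.trans (hDL k (by positivity))⟩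
  · obtain ⟨k, rfl⟩ := Int.le.dest hmn
    have hk := key n k
    rw [dist_comm] at hk
    have e : |((n + k : ℤ) : ℝ) - (n : ℝ)| = k := by
      push_cast
      rw [show (n : ℝ) + k - n = (k : ℝ) by ring, abs_of_nonneg (by positivity)]
    rw [e]
    exact ⟨(hcL k (by positivity)).trans hk.1, hk.2.trans (hDL k (by positivity))⟩

end aux

/-- Let `G` be a finitely generated group which is not virtually cyclic, has no nontrivial finite
normal subgroup and acts acylindrically by isometries on a geodesic hyperbolic space `X` with at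
least one loxodromic element.  Then `G` is generated by a finite set of elements which are
loxodromic on `X` and pairwise do not commute. -/
theorem result : ∀ (G : Type u) [Group G] (X : Type v) [MetricSpace X] [MulAction G X],
    Group.FG G → ¬ VirtuallyCyclic G → (∀ N : Subgroup G, N.Normal → Finite N → N = ⊥) →
    Geodesic X → Hyperbolic X → Isometric G X → Acylindrical G X → (∃ g : G, Loxodromic X g) →
    ∃ S : Finset G, Subgroup.closure (S : Set G) = ⊤ ∧ (∀ s ∈ S, Loxodromic X s) ∧
      ∀ s ∈ S, ∀ t ∈ S, s ≠ t → s * t ≠ t * s := by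
  intro G _ X _ _ hfg hnvc hK _ ⟨δ, hδ⟩ hi ha ⟨g, hg⟩
  obtain ⟨S, hS, hS1, hS2⟩ := H322R3.Acyl.exists_good (X := X) hi hδ (acyl ha) hfg hnvc hK
    (f₀ := g) (lox_of hi hg)
  exact ⟨S, hS, fun s hs => of_lox hi (hS1 s hs), hS2⟩

end Pool.Agent.Results.MP_10a497_al.GeodesicSpaces
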